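import Pool.Agent.Helper395.AA.Formal
import Pool.Agent.Helper395.AA.NoApprox

/-!
# MP_547e2f_an, Q1: Artin approximation for formal maps between real analytic submanifolds of finite
type — a counterexample

`M ⊂ C^5` and `M' ⊂ C^6` are the images of `(z₁, z₂, η) ↦ (z₁, z₂, η, η τ, η E(τ))` and
`(z₁, z₂, η) ↦ (z₁, z₂, η, η τ, η E(τ), g(η, τ))`, where `τ = \bar η + |z₁|² + i |z₂|²`,
`E(τ) = ∑ τ^{(k+1)!}` and `g(η, τ) = ∑_k c_k η^{(k+1)!} ∑_{j > k} τ^{(j+1)!}` with `c_k = 4^{(k+2)!}`.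
The formal map is `f = (z_1, ..., z_5, G(z_3, z_4, z_5))` with the divergent series
`G = ∑_k c_k (x_1^{(k+1)! - 1} x_3 - ∑_{j ≤ k} x_1^{(k+1)! - (j+1)!} x_2^{(j+1)!})`.

The definitions used in the statement (`IsDefining`, `CRLie`, `FiniteType`, `jetEval`, `jet`,
`MapsFormally`, `Approximates`) are in `Pool/Agent/Helper395/AA/Defs.lean`.
-/

set_option autoImplicit false

open Filter Topology Asymptotics

namespace Pool.Agent.Results.MP_547e2f_an.ArtinFails

open Pool.Agent.Helper395.AA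

theorem result_d1 : HasFDerivAt (fun p : ℂ × ℂ => p.1 * p.2) (0 : ℂ × ℂ →L[ℂ] ℂ) 0 := by
  have h := (hasFDerivAt_fst (𝕜 := ℂ) (p := (0 : ℂ × ℂ))).mul
    (hasFDerivAt_snd (𝕜 := ℂ) (p := (0 : ℂ × ℂ)))
  have h3 : (0 : ℂ × ℂ).1 • ContinuousLinearMap.snd ℂ ℂ ℂ +
      (0 : ℂ × ℂ).2 • ContinuousLinearMap.fst ℂ ℂ ℂ = 0 := by
    apply ContinuousLinearMap.ext
    intro x
    show (0 : ℂ) * x.2 + (0 : ℂ) * x.1 = 0
    ring
  rw [h3] at h
  exact h

theorem result_d2 : HasFDerivAt (fun p : ℂ × ℂ => p.1 * E p.2) (0 : ℂ × ℂ →L[ℂ] ℂ) 0 := by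
  have hE : HasFDerivAt E (fderiv ℂ E 0) ((0 : ℂ × ℂ).2) :=
    (E_analytic (τ := 0) (by simp)).differentiableAt.hasFDerivAt
  have h2 := hE.comp (0 : ℂ × ℂ) (hasFDerivAt_snd (𝕜 := ℂ) (p := (0 : ℂ × ℂ)))
  have h := (hasFDerivAt_fst (𝕜 := ℂ) (p := (0 : ℂ × ℂ))).mul h2
  have h3 : (0 : ℂ × ℂ).1 • ((fderiv ℂ E 0).comp (ContinuousLinearMap.snd ℂ ℂ ℂ)) +
      ((E ∘ Prod.snd) (0 : ℂ × ℂ)) • ContinuousLinearMap.fst ℂ ℂ ℂ = 0 := by
    apply ContinuousLinearMap.ext
    intro x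
    show (0 : ℂ) * (fderiv ℂ E 0 x.2) + E 0 * x.1 = 0
    rw [E_zero]
    ring
  rw [h3] at h
  exact h

theorem result_a1 : AnalyticAt ℂ (fun p : ℂ × ℂ => p.1 * p.2) 0 :=
  analyticAt_fst.mul analyticAt_snd

theorem result_a2 : AnalyticAt ℂ (fun p : ℂ × ℂ => p.1 * E p.2) 0 := by
  have hE : AnalyticAt ℂ E ((0 : ℂ × ℂ).2) := E_analytic (by simp)
  exact analyticAt_fst.mul (hE.comp analyticAt_snd)

theorem result_F1 : AnalyticAt ℂ F1 0 ∧ F1 0 = 0 ∧ fderiv ℂ F1 0 = 0 := by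
  refine ⟨?_, ?_, ?_⟩
  · rw [analyticAt_pi_iff]
    intro i
    fin_cases i
    · exact result_a1
    · exact result_a2
  · funext i
    fin_cases i <;> simp [F1]
  · apply HasFDerivAt.fderiv
    rw [hasFDerivAt_pi']
    intro i
    rw [ContinuousLinearMap.comp_zero]
    fin_cases i
    · exact result_d1
    · exact result_d2

theorem result_F2 : AnalyticAt ℂ F2 0 ∧ F2 0 = 0 ∧ fderiv ℂ F2 0 = 0 := by
  have hg : AnalyticAt ℂ gg 0 := gg_analytic (by simp)
  refine ⟨?_, ?_, ?_⟩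
  · rw [analyticAt_pi_iff]
    intro i
    fin_cases i
    · exact result_a1
    · exact result_a2
    · exact hg
  · funext i
    fin_cases i
    · simp [F2]
    · simp [F2]
    · exact gg_zero
  · apply HasFDerivAt.fderiv
    rw [hasFDerivAt_pi']
    intro i
    rw [ContinuousLinearMap.comp_zero]
    fin_cases i
    · exact result_d1
    · exact result_d2
    · have h := hg.differentiableAt.hasFDerivAt
      rw [gg_fderiv] at h
      exact h

theorem result_PP : MvPowerSeries.constantCoeff (fsum PP) = 0 := by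
  have h1 : MvPowerSeries.constantCoeff (fsum PP) = MvPolynomial.coeff 0 (PP 0) := by
    rw [← MvPowerSeries.coeff_zero_eq_constantCoeff_apply]
    show ∑ k ∈ Finset.range ((0 : Fin 5 →₀ ℕ).degree + 1), MvPolynomial.coeff 0 (PP k) = _
    simp
  rw [h1]
  have h2 : MvPolynomial.coeff 0 (PP 0) = MvPolynomial.constantCoeff (PP 0) := rfl
  rw [h2]
  unfold PP
  simp [ex]

theorem result_ff (i : Fin 5) : ff i.castSucc = MvPowerSeries.X i := by
  fin_cases i <;> rfl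

theorem no_approx (h : (Fin 5 → ℂ) → (Fin 6 → ℂ)) (hh : AnalyticAt ℂ h 0)
    (hM : ∀ᶠ z in 𝓝 (0 : Fin 5 → ℂ), rho (m := 2) F1 z = 0 → rho (m := 3) F2 (h z) = 0)
    (h1 : ∀ i : Fin 5, (fun z : Fin 5 → ℂ => h z i.castSucc - z i) =O[𝓝 0] fun z => ‖z‖ ^ 2) :
    False := by
  obtain ⟨T, hT, hT1, heq⟩ := complexified h hh hM h1
  obtain ⟨K, hK, hKe⟩ := invert h hh h1 T hT hT1 heq
  exact no_K K hK hKe

/-- **Negative answer to Q1.** There are germs at `0` of real analytic submanifolds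
`M = {ρ = 0} ⊂ C^n` and `M' = {ρ' = 0} ⊂ C^N`, both of finite type at `0`, and a formal holomorphic
map `f` without constant term that maps `M` into `M'` formally, such that for no `ℓ ≥ 1` is there a
convergent holomorphic map germ sending `M` into `M'` with the same `ℓ`-jet at `0` as `f`. -/
theorem result : ∃ (n N k k' : ℕ) (ρ : (Fin n → ℂ) → (Fin k → ℂ)) (ρ' : (Fin N → ℂ) → (Fin k' → ℂ))
    (f : Fin N → MvPowerSeries (Fin n) ℂ),
    IsDefining ρ ∧ IsDefining ρ' ∧ FiniteType ρ ∧ FiniteType ρ' ∧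
    (∀ j, MvPowerSeries.constantCoeff (f j) = 0) ∧ MapsFormally ρ ρ' f ∧
    ∀ ℓ : ℕ, 1 ≤ ℓ → ¬ ∃ h : (Fin n → ℂ) → (Fin N → ℂ), Approximates ρ ρ' f ℓ h := by
  refine ⟨5, 6, 2, 3, rho (m := 2) F1, rho (m := 3) F2, ff,
    rho_isDefining F1 result_F1.1 result_F1.2.1 result_F1.2.2,
    rho_isDefining F2 result_F2.1 result_F2.2.1 result_F2.2.2,
    rho_finiteType F1 result_F1.1 result_F1.2.1 result_F1.2.2,
    rho_finiteType F2 result_F2.1 result_F2.2.1 result_F2.2.2, ?_, maps_formally, ?_⟩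
  · intro j
    induction j using Fin.lastCases with
    | last => exact result_PP
    | cast i => rw [result_ff, MvPowerSeries.constantCoeff_X]
  · rintro ℓ hℓ ⟨h, h1, h2, h3⟩
    apply no_approx h h1 h2
    intro i
    have h4 := (isBigO_pi.1 h3) i.castSucc
    have h5 : (fun z : Fin 5 → ℂ => (h z - jet ℓ ff z) i.castSucc) =
        fun z => h z i.castSucc - z i := by
      funext z
      rw [Pi.sub_apply]
      congr 1
      show jetEval ℓ (ff i.castSucc) z = z i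
      rw [result_ff, jetEval_X ℓ hℓ i z]
    rw [h5] at h4
    refine h4.trans ?_
    apply IsBigO.of_bound 1
    have h6 : ∀ᶠ z : Fin 5 → ℂ in 𝓝 0, ‖z‖ < 1 := by
      have := Metric.ball_mem_nhds (0 : Fin 5 → ℂ) one_pos
      filter_upwards [this] with z hz
      simpa using hz
    filter_upwards [h6] with z hz
    rw [one_mul, norm_pow, norm_pow, norm_norm]
    exact pow_le_pow_of_le_one (norm_nonneg _) hz.le (by omega)

end Pool.Agent.Results.MP_547e2f_an.ArtinFails
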